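import Mathlib

/-! A positive integer congruent to 2 modulo 4 is a sum of three squares (Gauss, Dirichlet). -/

namespace H77.TS

/-- `a, b, c` are the squared lengths and `d, e, f` the inner products of three vectors of `ℤ³`. -/
def Rep (a b c d e f : ℤ) : Prop :=
  ∃ u1 u2 u3 v1 v2 v3 w1 w2 w3 : ℤ,
    u1 ^ 2 + u2 ^ 2 + u3 ^ 2 = a ∧ v1 ^ 2 + v2 ^ 2 + v3 ^ 2 = b ∧ w1 ^ 2 + w2 ^ 2 + w3 ^ 2 = c ∧
    u1 * v1 + u2 * v2 + u3 * v3 = d ∧ u1 * w1 + u2 * w2 + u3 * w3 = e ∧
    v1 * w1 + v2 * w2 + v3 * w3 = f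

lemma Rep.swap12 {a b c d e f : ℤ} (h : Rep b a c d f e) : Rep a b c d e f := by
  obtain ⟨u1, u2, u3, v1, v2, v3, w1, w2, w3, h1, h2, h3, h4, h5, h6⟩ := h
  exact ⟨v1, v2, v3, u1, u2, u3, w1, w2, w3, h2, h1, h3, by linarith, h6, h5⟩

lemma Rep.swap23 {a b c d e f : ℤ} (h : Rep a c b e d f) : Rep a b c d e f := by
  obtain ⟨u1, u2, u3, v1, v2, v3, w1, w2, w3, h1, h2, h3, h4, h5, h6⟩ := h
  exact ⟨u1, u2, u3, w1, w2, w3, v1, v2, v3, h1, h3, h2, h5, h4, by linarith⟩

lemma Rep.shift12 {a b c d e f : ℤ} (k : ℤ)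
    (h : Rep a (b + 2 * k * d + k ^ 2 * a) c (d + k * a) e (f + k * e)) : Rep a b c d e f := by
  obtain ⟨u1, u2, u3, v1, v2, v3, w1, w2, w3, h1, h2, h3, h4, h5, h6⟩ := h
  refine ⟨u1, u2, u3, v1 - k * u1, v2 - k * u2, v3 - k * u3, w1, w2, w3, h1, ?_, h3, ?_, h5, ?_⟩
  · linear_combination h2 - 2 * k * h4 + k ^ 2 * h1
  · linear_combination h4 - k * h1
  · linear_combination h6 - k * h5

lemma Rep.shift23 {a b c d e f : ℤ} (k : ℤ)
    (h : Rep a b (c + 2 * k * f + k ^ 2 * b) d (e + k * d) (f + k * b)) : Rep a b c d e f := by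
  obtain ⟨u1, u2, u3, v1, v2, v3, w1, w2, w3, h1, h2, h3, h4, h5, h6⟩ := h
  refine ⟨u1, u2, u3, v1, v2, v3, w1 - k * v1, w2 - k * v2, w3 - k * v3, h1, h2, ?_, h4, ?_, ?_⟩
  · linear_combination h3 - 2 * k * h6 + k ^ 2 * h2
  · linear_combination h5 - k * h4
  · linear_combination h6 - k * h2

lemma round (x m : ℤ) (hm : 0 < m) : ∃ k : ℤ, 4 * (x + k * m) ^ 2 ≤ m ^ 2 := by
  refine ⟨-((2 * x + m) / (2 * m)), ?_⟩
  set q := (2 * x + m) / (2 * m) with hq
  have h1 : 2 * m * q ≤ 2 * x + m := Int.mul_ediv_self_le (by positivity)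
  have h2 : 2 * x + m < 2 * m * q + 2 * m := Int.lt_mul_ediv_self_add (by positivity)
  have h3 : -m ≤ 2 * (x + -q * m) := by nlinarith
  have h4 : 2 * (x + -q * m) ≤ m := by nlinarith
  nlinarith

theorem red (N : ℕ) : ∀ a b c d e f : ℤ, 0 < a → 0 < a * b - d ^ 2 →
    a * b * c + 2 * d * e * f - a * f ^ 2 - b * e ^ 2 - c * d ^ 2 = 1 →
    a + (a * b - d ^ 2) ≤ N → Rep a b c d e f := by
  induction N with
  | zero => intro a b c d e f ha hB _ hN; push_cast at hN; linarith
  | succ N ih =>
    intro a b c d e f ha hB hdet hN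
    push_cast at hN
    by_cases h1 : 3 * a ^ 2 ≤ 4 * (a * b - d ^ 2)
    · by_cases h2 : 3 * (a * b - d ^ 2) ^ 2 ≤ 4 * a
      · set B := a * b - d ^ 2 with hBdef
        have ha1 : a = 1 := by
          by_contra hne
          have ha2 : 2 ≤ a := by omega
          have hB2 : 3 ≤ B := by nlinarith
          have h3 : 3 * B * B ≤ 4 * a := by nlinarith
          have h4 : 3 * a * a ≤ 4 * B := by nlinarith
          have h5 : 9 * B ≤ 4 * a := by nlinarith
          nlinarith
        have hB1 : B = 1 := by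
          by_contra hne
          have hB2 : 2 ≤ B := by omega
          rw [ha1] at h2
          nlinarith
        subst ha1
        have hb : b = 1 + d ^ 2 := by linarith
        subst hb
        refine ⟨1, 0, 0, d, 1, 0, e, f - d * e, 1, by ring, by ring, ?_, by ring, by ring, by ring⟩
        linear_combination (-1 : ℤ) * hdet
      · -- reduce the second principal minor
        set B := a * b - d ^ 2 with hBdef
        obtain ⟨k, hk⟩ := round (a * f - d * e) B hB
        apply Rep.shift23 k
        apply Rep.swap23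
        set c' := c + 2 * k * f + k ^ 2 * b with hc'
        set e' := e + k * d with he'
        set f' := f + k * b with hf'
        have hg : a * f' - d * e' = a * f - d * e + k * B := by rw [hf', he', hBdef]; ring
        have hdet' : a * b * c' + 2 * d * e' * f' - a * f' ^ 2 - b * e' ^ 2 - c' * d ^ 2 = 1 := by
          rw [hc', he', hf']; linear_combination hdet
        have hadj : (a * c' - e' ^ 2) * B = a + (a * f' - d * e') ^ 2 := by
          rw [hBdef]; linear_combination a * hdet'
        rw [← hg] at hk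
        have hpos : 0 < a * c' - e' ^ 2 := by
          by_contra hneg
          push Not at hneg
          nlinarith [sq_nonneg (a * f' - d * e')]
        have hlt : a * c' - e' ^ 2 < B := by
          by_contra hge
          push Not at hge
          nlinarith
        exact ih a c' b e' d f' ha hpos (by linear_combination hdet') (by linarith)
    · -- reduce a
      obtain ⟨k, hk⟩ := round d a ha
      apply Rep.shift12 k
      apply Rep.swap12
      set b' := b + 2 * k * d + k ^ 2 * a with hb'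
      set d' := d + k * a with hd'
      set f' := f + k * e with hf'
      have hB' : a * b' - d' ^ 2 = a * b - d ^ 2 := by rw [hb', hd']; ring
      have hdet' : a * b' * c + 2 * d' * e * f' - a * f' ^ 2 - b' * e ^ 2 - c * d' ^ 2 = 1 := by
        rw [hb', hd', hf']; linear_combination hdet
      push Not at h1
      have hpos : 0 < b' := by
        by_contra hneg
        push Not at hneg
        nlinarith [sq_nonneg d']
      have hlt : b' < a := by
        by_contra hge
        push Not at hge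
        nlinarith
      exact ih b' a c d' f' e hpos (by linarith) (by linear_combination hdet') (by linarith)

theorem three_squares {n : ℕ} (hn : n % 4 = 2) : ∃ a b c : ℤ, a ^ 2 + b ^ 2 + c ^ 2 = (n : ℤ) := by
  have hcop : (n - 1).Coprime (4 * n) := by
    have h1 : (n - 1).Coprime n := by
      have h := Nat.coprime_self_sub_left (m := 1) (n := n) (by omega)
      exact h.mpr (Nat.coprime_one_left n)
    have h2 : (n - 1).Coprime 4 := by
      have : (n - 1).Coprime (2 ^ 2) := by
        apply Nat.Coprime.pow_right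
        rw [Nat.coprime_comm, Nat.coprime_two_left]
        rw [Nat.odd_iff]; omega
      simpa using this
    exact Nat.Coprime.mul_right h2 h1
  obtain ⟨p, hpn, hp, hmod⟩ := Nat.forall_exists_prime_gt_and_modEq n (q := 4 * n) (by omega) hcop
  have : Fact p.Prime := ⟨hp⟩
  set m := p / (4 * n) with hm
  have hpm : p = 4 * n * m + (n - 1) := by
    have h1 := Nat.div_add_mod p (4 * n)
    have h2 : p % (4 * n) = n - 1 := by
      rw [hmod, Nat.mod_eq_of_lt]; omega
    rw [h2] at h1
    exact h1.symm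
  set β : ℕ := 4 * m + 1 with hβ
  have hpβ : p + 1 = β * n := by
    have : n - 1 + 1 = n := by omega
    rw [hpm, hβ]
    calc 4 * n * m + (n - 1) + 1 = 4 * n * m + (n - 1 + 1) := by ring
      _ = (4 * m + 1) * n := by rw [this]; ring
  have hp4 : p % 4 = 1 := by
    have : p = 4 * (n * m) + (n - 1) := by rw [hpm]; ring
    omega
  have hpodd : Odd p := by rw [Nat.odd_iff]; omega
  have hβ4 : β % 4 = 1 := by omega
  have hβodd : Odd β := by rw [Nat.odd_iff]; omega
  have hleg : legendreSym p (-(β : ℤ)) = 1 := by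
    rw [jacobiSym.legendreSym.to_jacobiSym]
    have e1 : jacobiSym (-(β : ℤ)) p = jacobiSym (-1) p * jacobiSym β p := by
      rw [← jacobiSym.mul_left]; congr 1; ring
    rw [e1, jacobiSym.at_neg_one hpodd, ZMod.χ₄_nat_one_mod_four hp4, one_mul,
      jacobiSym.quadratic_reciprocity_one_mod_four hβ4 hpodd]
    have e2 : jacobiSym (p : ℤ) β = jacobiSym (-1) β := by
      apply jacobiSym.mod_left'
      have : (p : ℤ) = -1 + β * n := by
        have : ((p + 1 : ℕ) : ℤ) = ((β * n : ℕ) : ℤ) := by rw [hpβ]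
        push_cast at this; linarith
      rw [this, Int.add_mul_emod_self_left]
    rw [e2, jacobiSym.at_neg_one hβodd, ZMod.χ₄_nat_one_mod_four hβ4]
  have hsq : IsSquare (((-(β : ℤ) : ℤ)) : ZMod p) := by
    have h0 : (((-(β : ℤ) : ℤ)) : ZMod p) ≠ 0 := by
      intro h0
      have := (legendreSym.eq_zero_iff p (-(β : ℤ))).mpr h0
      rw [hleg] at this
      exact one_ne_zero this
    exact (legendreSym.eq_one_iff p h0).mp hleg
  obtain ⟨y, hy⟩ := hsq
  obtain ⟨d, hd⟩ := ZMod.intCast_surjective y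
  have hdvd : (p : ℤ) ∣ d ^ 2 + β := by
    rw [← ZMod.intCast_zmod_eq_zero_iff_dvd]
    push_cast
    push_cast at hy
    rw [hd, sq, ← hy]
    ring
  obtain ⟨a, ha⟩ := hdvd
  have hp0 : (0 : ℤ) < p := by exact_mod_cast hp.pos
  have hβ0 : (0 : ℤ) < β := by rw [hβ]; positivity
  have hpβ' : (p : ℤ) + 1 = β * n := by exact_mod_cast hpβ
  have ha0 : 0 < a := by
    by_contra hneg
    push Not at hneg
    nlinarith [sq_nonneg d]
  have hB : a * (p : ℤ) - d ^ 2 = β := by linarith
  have hrep := red (a + β).toNat a p n d 1 0 ha0 (by rw [hB]; exact hβ0)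
    (by linear_combination (n : ℤ) * hB - hpβ')
    (by rw [hB, Int.toNat_of_nonneg (by linarith)])
  obtain ⟨u1, u2, u3, v1, v2, v3, w1, w2, w3, -, -, h3, -, -, -⟩ := hrep
  exact ⟨w1, w2, w3, h3⟩

end H77.TS
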