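import Mathlib
import Pool.Agent.H77.ThreeSq

/-! Four-square representations of `n ^ 2` with `x + 2 y + 3 z` a prescribed power of four. -/

namespace H77.TS

def sg {R : Type} [Neg R] (t : Bool) (x : R) : R := if t then x else -x

lemma sg_cast (t : Bool) (x : ℤ) : ((sg t x : ℤ) : ZMod 7) = sg t (x : ZMod 7) := by
  cases t <;> simp [sg]

lemma sg_sq (t : Bool) (x : ℤ) : (sg t x) ^ 2 = x ^ 2 := by
  cases t <;> simp [sg]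

lemma sel7 : ∀ s a b c : ZMod 7, s ≠ 0 → s * s + a * a + b * b + c * c = 0 →
    ∃ t1 t2 t3 : Bool,
      (s - 2 * sg t1 a - 3 * sg t2 b = 0 ∧ sg t1 a + 4 * sg t2 b + 2 * sg t3 c = 0) ∨
      (s - 2 * sg t1 b - 3 * sg t2 a = 0 ∧ sg t1 b + 4 * sg t2 a + 2 * sg t3 c = 0) := by
  decide +kernel

lemma sel (s a b c : ℤ) (hs : ¬ (7 : ℤ) ∣ s) (h : (7 : ℤ) ∣ s ^ 2 + a ^ 2 + b ^ 2 + c ^ 2) :
    ∃ a' b' c' : ℤ, a' ^ 2 + b' ^ 2 + c' ^ 2 = a ^ 2 + b ^ 2 + c ^ 2 ∧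
      (7 : ℤ) ∣ s - 2 * a' - 3 * b' ∧ (7 : ℤ) ∣ a' + 4 * b' + 2 * c' := by
  have hs' : (s : ZMod 7) ≠ 0 := by
    intro h0; exact hs ((ZMod.intCast_zmod_eq_zero_iff_dvd s 7).mp h0)
  have h' : (s : ZMod 7) * s + a * a + b * b + c * c = 0 := by
    have := (ZMod.intCast_zmod_eq_zero_iff_dvd (s ^ 2 + a ^ 2 + b ^ 2 + c ^ 2) 7).mpr h
    push_cast at this
    rw [← this]; ring
  obtain ⟨t1, t2, t3, h | h⟩ := sel7 s a b c hs' h'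
  · refine ⟨sg t1 a, sg t2 b, sg t3 c, by simp only [sg_sq], ?_, ?_⟩
    · rw [← Nat.cast_ofNat (R := ℤ), ← ZMod.intCast_zmod_eq_zero_iff_dvd]
      push_cast
      rw [sg_cast, sg_cast]; exact h.1
    · rw [← Nat.cast_ofNat (R := ℤ), ← ZMod.intCast_zmod_eq_zero_iff_dvd]
      push_cast
      rw [sg_cast, sg_cast, sg_cast]; exact h.2
  · refine ⟨sg t1 b, sg t2 a, sg t3 c, by simp only [sg_sq]; ring, ?_, ?_⟩
    · rw [← Nat.cast_ofNat (R := ℤ), ← ZMod.intCast_zmod_eq_zero_iff_dvd]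
      push_cast
      rw [sg_cast, sg_cast]; exact h.1
    · rw [← Nat.cast_ofNat (R := ℤ), ← ZMod.intCast_zmod_eq_zero_iff_dvd]
      push_cast
      rw [sg_cast, sg_cast, sg_cast]; exact h.2

lemma fin (n s a b c : ℤ) (hs : 0 < s) (hN : s ^ 2 + a ^ 2 + b ^ 2 + c ^ 2 = 14 * n ^ 2)
    (h7a : (7 : ℤ) ∣ s - 2 * a - 3 * b) (h7b : (7 : ℤ) ∣ a + 4 * b + 2 * c)
    (h2 : (2 : ℤ) ∣ s - b) (h2' : (2 : ℤ) ∣ a - c) (hx : 2 * a + 3 * b ≤ s)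
    (hD : 25 * (a ^ 2 + b ^ 2 + c ^ 2) ≤ 3 * s ^ 2) :
    ∃ x y z w : ℕ, (x : ℤ) + 2 * y + 3 * z = s ∧
      (n : ℤ) ^ 2 = (x : ℤ) ^ 2 + y ^ 2 + z ^ 2 + w ^ 2 := by
  obtain ⟨x, hx1⟩ : (14 : ℤ) ∣ s - 2 * a - 3 * b := by omega
  obtain ⟨y, hy1⟩ : (14 : ℤ) ∣ 2 * s + a + 3 * c := by omega
  obtain ⟨z, hz1⟩ : (14 : ℤ) ∣ 3 * s + b - 2 * c := by omega
  obtain ⟨w, hw1⟩ : (14 : ℤ) ∣ c + 2 * b - 3 * a := by omega
  have hx0 : 0 ≤ x := by omega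
  have hy0 : 0 ≤ y := by
    by_contra hneg
    have h1 : a + 3 * c < -(2 * s) := by omega
    nlinarith [sq_nonneg (3 * a - c), sq_nonneg b]
  have hz0 : 0 ≤ z := by
    by_contra hneg
    have h1 : b - 2 * c < -(3 * s) := by omega
    nlinarith [sq_nonneg (2 * b + c), sq_nonneg a]
  refine ⟨x.toNat, y.toNat, z.toNat, w.natAbs, ?_, ?_⟩
  · rw [Int.toNat_of_nonneg hx0, Int.toNat_of_nonneg hy0, Int.toNat_of_nonneg hz0]; omega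
  · rw [Int.toNat_of_nonneg hx0, Int.toNat_of_nonneg hy0, Int.toNat_of_nonneg hz0,
      Int.natCast_natAbs, sq_abs]
    have h196 : 196 * (x ^ 2 + y ^ 2 + z ^ 2 + w ^ 2) = 196 * n ^ 2 := by
      have e1 : (14 * x) ^ 2 + (14 * y) ^ 2 + (14 * z) ^ 2 + (14 * w) ^ 2 =
          14 * (s ^ 2 + a ^ 2 + b ^ 2 + c ^ 2) := by
        rw [← hx1, ← hy1, ← hz1, ← hw1]; ring
      rw [hN] at e1
      linarith
    linarith

lemma sq_mod4 (t : ℤ) : t ^ 2 % 4 = t % 2 := by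
  rcases Int.emod_two_eq_zero_or_one t with h | h
  · obtain ⟨q, hq⟩ := Int.dvd_of_emod_eq_zero h
    have h1 : t ^ 2 = 4 * q ^ 2 := by rw [hq]; ring
    omega
  · obtain ⟨q, hq⟩ : ∃ q, t = 2 * q + 1 := ⟨t / 2, by omega⟩
    have h1 : t ^ 2 = 4 * (q ^ 2 + q) + 1 := by rw [hq]; ring
    omega

lemma cyc {s a b c : ℤ} (h1 : (7 : ℤ) ∣ s - 2 * a - 3 * b) (h2 : (7 : ℤ) ∣ a + 4 * b + 2 * c) :
    (7 : ℤ) ∣ s - 2 * b - 3 * c ∧ (7 : ℤ) ∣ b + 4 * c + 2 * a := by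
  obtain ⟨p, hp⟩ := h1
  obtain ⟨q, hq⟩ := h2
  exact ⟨⟨p + 2 * q - b - c, by linarith⟩, ⟨2 * q - b, by linarith⟩⟩

lemma par_sub {a b : ℤ} (h : a % 2 = b % 2) : (2 : ℤ) ∣ a - b := by omega

lemma odd_case (n s A B C : ℤ) (hs0 : 0 < s) (hs2 : (2 : ℤ) ∣ s)
    (hsum : s ^ 2 + A ^ 2 + B ^ 2 + C ^ 2 = 14 * n ^ 2)
    (h7a : (7 : ℤ) ∣ s - 2 * A - 3 * B) (h7b : (7 : ℤ) ∣ A + 4 * B + 2 * C)
    (hpar : (A ^ 2 + B ^ 2 + C ^ 2) % 4 = 2)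
    (hD : 13 * (A ^ 2 + B ^ 2 + C ^ 2) ≤ s ^ 2) :
    ∃ x y z w : ℕ, (x : ℤ) + 2 * y + 3 * z = s ∧
      n ^ 2 = (x : ℤ) ^ 2 + y ^ 2 + z ^ 2 + w ^ 2 := by
  have hx : ∀ a b c : ℤ, a ^ 2 + b ^ 2 + c ^ 2 = A ^ 2 + B ^ 2 + C ^ 2 →
      2 * a + 3 * b ≤ s := by
    intro a b c h
    by_contra hlt
    push Not at hlt
    nlinarith [sq_nonneg (3 * a - 2 * b), sq_nonneg c]
  have hDD : 25 * (A ^ 2 + B ^ 2 + C ^ 2) ≤ 3 * s ^ 2 := by nlinarith [sq_nonneg s]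
  have hA4 := sq_mod4 A
  have hB4 := sq_mod4 B
  have hC4 := sq_mod4 C
  have hA := Int.emod_two_eq_zero_or_one A
  have hB := Int.emod_two_eq_zero_or_one B
  have hC := Int.emod_two_eq_zero_or_one C
  have hpar3 : (A % 2 = 1 ∧ B % 2 = 0 ∧ C % 2 = 1) ∨ (A % 2 = 1 ∧ B % 2 = 1 ∧ C % 2 = 0) ∨
      (A % 2 = 0 ∧ B % 2 = 1 ∧ C % 2 = 1) := by
    clear hsum hD hDD hx h7a h7b hs2 hs0
    generalize A ^ 2 = A2 at *
    generalize B ^ 2 = B2 at *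
    generalize C ^ 2 = C2 at *
    rcases hA with h1 | h1 <;> rcases hB with h2 | h2 <;> rcases hC with h3 | h3 <;>
      first | (exfalso; omega) | simp [h1, h2, h3]
  have hs2' : s % 2 = 0 := Int.emod_eq_zero_of_dvd hs2
  obtain ⟨c1, c2⟩ := cyc h7a h7b
  obtain ⟨c3, c4⟩ := cyc c1 c2
  rcases hpar3 with ⟨h1, h2, h3⟩ | ⟨h1, h2, h3⟩ | ⟨h1, h2, h3⟩
  · exact fin n s A B C hs0 hsum h7a h7b (par_sub (hs2'.trans h2.symm))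
      (par_sub (h1.trans h3.symm)) (hx A B C rfl) hDD
  · exact fin n s B C A hs0 (by linarith) c1 c2 (par_sub (hs2'.trans h3.symm))
      (par_sub (h2.trans h1.symm)) (hx B C A (by ring)) (by linarith)
  · exact fin n s C A B hs0 (by linarith) c3 c4 (par_sub (hs2'.trans h1.symm))
      (par_sub (h3.trans h2.symm)) (hx C A B (by ring)) (by linarith)

lemma even_case (n s A B C : ℤ) (hs0 : 0 < s) (hs2 : (2 : ℤ) ∣ s)
    (hsum : s ^ 2 + A ^ 2 + B ^ 2 + C ^ 2 = 14 * n ^ 2)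
    (h7a : (7 : ℤ) ∣ s - 2 * A - 3 * B) (h7b : (7 : ℤ) ∣ A + 4 * B + 2 * C)
    (hpar : (4 : ℤ) ∣ A ^ 2 + B ^ 2 + C ^ 2)
    (hD : 25 * (A ^ 2 + B ^ 2 + C ^ 2) ≤ 3 * s ^ 2) :
    ∃ x y z w : ℕ, (x : ℤ) + 2 * y + 3 * z = s ∧
      n ^ 2 = (x : ℤ) ^ 2 + y ^ 2 + z ^ 2 + w ^ 2 := by
  have hA4 := sq_mod4 A
  have hB4 := sq_mod4 B
  have hC4 := sq_mod4 C
  obtain ⟨hA, hB, hC⟩ : (2 : ℤ) ∣ A ∧ (2 : ℤ) ∣ B ∧ (2 : ℤ) ∣ C := by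
    have hA := Int.emod_two_eq_zero_or_one A
    have hB := Int.emod_two_eq_zero_or_one B
    have hC := Int.emod_two_eq_zero_or_one C
    omega
  obtain ⟨c1, c2⟩ := cyc h7a h7b
  obtain ⟨c3, c4⟩ := cyc c1 c2
  by_cases hx1 : 2 * A + 3 * B ≤ s
  · exact fin n s A B C hs0 hsum h7a h7b (dvd_sub hs2 hB) (dvd_sub hA hC) hx1 hD
  by_cases hx2 : 2 * B + 3 * C ≤ s
  · exact fin n s B C A hs0 (by linarith) c1 c2 (dvd_sub hs2 hC) (dvd_sub hB hA) hx2 (by linarith)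
  by_cases hx3 : 2 * C + 3 * A ≤ s
  · exact fin n s C A B hs0 (by linarith) c3 c4 (dvd_sub hs2 hA) (dvd_sub hC hB) hx3 (by linarith)
  exfalso
  push Not at hx1 hx2 hx3
  have h5 : 3 * s < 5 * (A + B + C) := by linarith
  nlinarith [sq_nonneg (A - B), sq_nonneg (B - C), sq_nonneg (A - C)]

theorem main (n k : ℕ) (h14 : 16 ^ k ≤ 14 * n ^ 2)
    (h : 13 * n ^ 2 ≤ 16 ^ k ∨ Even n ∧ 25 * n ^ 2 ≤ 2 * 16 ^ k) :
    ∃ x y z w : ℕ, n ^ 2 = x ^ 2 + y ^ 2 + z ^ 2 + w ^ 2 ∧ x + 2 * y + 3 * z = 4 ^ k := by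
  have hn0 : n ≠ 0 := by
    rintro rfl
    have : 0 < 16 ^ k := by positivity
    omega
  have h25 : 25 * n ^ 2 ≤ 2 * 16 ^ k := by
    rcases h with h | h
    · omega
    · exact h.2
  obtain ⟨i, m, hm, hnm⟩ := Nat.exists_eq_two_pow_mul_odd hn0
  -- 2 k > i
  have hki : i < 2 * k := by
    by_contra hge
    push Not at hge
    have h1 : 16 ^ k ≤ 4 ^ i := by
      calc 16 ^ k = 4 ^ (2 * k) := by rw [pow_mul]; norm_num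
        _ ≤ 4 ^ i := Nat.pow_le_pow_right (by norm_num) hge
    have h2 : 4 ^ i ≤ n ^ 2 := by
      have : 1 ≤ m := hm.pos
      rw [hnm, mul_pow, ← pow_mul, mul_comm i 2, pow_mul]
      norm_num
      nlinarith [pow_pos (show 0 < 4 by norm_num) i, Nat.one_le_iff_ne_zero.mp this]
    have h3 : 0 < n ^ 2 := by positivity
    omega
  obtain ⟨j, hj⟩ : ∃ j, 2 * k = i + (j + 1) := ⟨2 * k - i - 1, by omega⟩
  have hs4 : 4 ^ k = 2 ^ i * 2 ^ (j + 1) := by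
    rw [← pow_add, ← hj, pow_mul]; norm_num
  have hs16 : 16 ^ k = 4 ^ i * (2 ^ (j + 1)) ^ 2 := by
    have : 16 ^ k = (4 ^ k) ^ 2 := by rw [← pow_mul, mul_comm, pow_mul]; norm_num
    rw [this, hs4, mul_pow, ← pow_mul, mul_comm i 2, pow_mul]
    norm_num
  have hn4 : n ^ 2 = 4 ^ i * m ^ 2 := by
    rw [hnm, mul_pow, ← pow_mul, mul_comm i 2, pow_mul]; norm_num
  have hle : (2 ^ (j + 1)) ^ 2 ≤ 14 * m ^ 2 := by
    have h4 : 0 < 4 ^ i := by positivity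
    rw [hs16, hn4] at h14
    have : 4 ^ i * (2 ^ (j + 1)) ^ 2 ≤ 4 ^ i * (14 * m ^ 2) := by linarith
    exact Nat.le_of_mul_le_mul_left this h4
  obtain ⟨D, hD⟩ := Nat.exists_eq_add_of_le hle
  have hD4 : D % 4 = 2 := by
    obtain ⟨q, hq⟩ := hm
    have h1 : m ^ 2 = 4 * (q ^ 2 + q) + 1 := by rw [hq]; ring
    have h2 : (2 ^ (j + 1)) ^ 2 = 4 * (2 ^ j) ^ 2 := by ring
    rw [h1, h2] at hD
    omega
  obtain ⟨a, b, c, habc⟩ := three_squares hD4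
  -- the data
  set s : ℤ := 4 ^ k with hs
  have hsi : s = 2 ^ i * 2 ^ (j + 1) := by rw [hs]; exact_mod_cast hs4
  have hs0 : 0 < s := by rw [hs]; positivity
  have hs2 : (2 : ℤ) ∣ s := by rw [hsi]; exact ⟨2 ^ i * 2 ^ j, by ring⟩
  have hs7 : ¬ (7 : ℤ) ∣ s := by
    rw [hs]
    intro h7
    have h7' : (7 : ℕ) ∣ 4 ^ k := by exact_mod_cast h7
    have := (show Nat.Prime 7 by norm_num).dvd_of_dvd_pow h7'
    omega
  have hDz : (2 : ℤ) ^ (j + 1) * 2 ^ (j + 1) + D = 14 * (m : ℤ) ^ 2 := by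
    have : ((14 * m ^ 2 : ℕ) : ℤ) = (((2 ^ (j + 1)) ^ 2 + D : ℕ) : ℤ) := by rw [hD]
    push_cast at this
    linarith
  have hnz : (n : ℤ) ^ 2 = 4 ^ i * (m : ℤ) ^ 2 := by exact_mod_cast hn4
  have h4i : (2 : ℤ) ^ i * 2 ^ i = 4 ^ i := by rw [← mul_pow]; norm_num
  have hsum : s ^ 2 + (2 ^ i * a) ^ 2 + (2 ^ i * b) ^ 2 + (2 ^ i * c) ^ 2 = 14 * (n : ℤ) ^ 2 := by
    rw [hsi, hnz]
    linear_combination ((2 : ℤ) ^ i * 2 ^ i) * habc + ((2 : ℤ) ^ i * 2 ^ i) * hDz +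
      14 * (m : ℤ) ^ 2 * h4i
  obtain ⟨A, B, C, hABC, h7a, h7b⟩ := sel s (2 ^ i * a) (2 ^ i * b) (2 ^ i * c) hs7
    (by rw [hsum]; exact ⟨2 * (n : ℤ) ^ 2, by ring⟩)
  have hsum' : s ^ 2 + A ^ 2 + B ^ 2 + C ^ 2 = 14 * (n : ℤ) ^ 2 := by linarith
  have hs16z : s ^ 2 = 16 ^ k := by
    rw [hs, ← pow_mul, mul_comm, pow_mul]; norm_num
  have h25z : 25 * (n : ℤ) ^ 2 ≤ 2 * s ^ 2 := by rw [hs16z]; exact_mod_cast h25
  have hDD : 25 * (A ^ 2 + B ^ 2 + C ^ 2) ≤ 3 * s ^ 2 := by linarith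
  have key : ∃ x y z w : ℕ, (x : ℤ) + 2 * y + 3 * z = s ∧
      (n : ℤ) ^ 2 = (x : ℤ) ^ 2 + y ^ 2 + z ^ 2 + w ^ 2 := by
    rcases Nat.eq_zero_or_pos i with hi | hi
    · -- n odd
      subst hi
      have hnodd : ¬ Even n := by
        rw [hnm]; simpa using hm
      have h13 : 13 * n ^ 2 ≤ 16 ^ k := by
        rcases h with h | h
        · exact h
        · exact absurd h.1 hnodd
      have h13z : 13 * (n : ℤ) ^ 2 ≤ s ^ 2 := by rw [hs16z]; exact_mod_cast h13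
      refine odd_case n s A B C hs0 hs2 hsum' h7a h7b ?_ (by linarith)
      rw [hABC]
      simp only [pow_zero, one_mul]
      rw [habc]; omega
    · -- n even
      refine even_case n s A B C hs0 hs2 hsum' h7a h7b ?_ hDD
      rw [hABC]
      obtain ⟨i', rfl⟩ : ∃ i', i = i' + 1 := ⟨i - 1, by omega⟩
      exact ⟨(2 ^ i' * a) ^ 2 + (2 ^ i' * b) ^ 2 + (2 ^ i' * c) ^ 2, by ring⟩
  obtain ⟨x, y, z, w, h1, h2⟩ := key
  refine ⟨x, y, z, w, by exact_mod_cast h2, ?_⟩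
  rw [hs] at h1
  exact_mod_cast h1

end H77.TS
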